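import Pool.Agent.CYH.Asm

/-!
# Period relations and torsors over number fields for products of Calabi–Yau varieties of odd
# dimension in the Dwork pencils

`n` is even, `N = n + 1`, `X_ψ : x_0 ^ N + ... + x_n ^ N = N ψ x_0 ... x_n` (dimension `n - 1`;
`n = 2`: elliptic curves, `n = 4`: quintic threefolds). `Per n ψ` is the matrix of the periods of
`∂_ψ ^ k Res (Ω / F_ψ)`, `k < n`, a basis of the part `V` of the middle cohomology which is
invariant under the diagonal symmetries; the entries are explicit integrals of algebraic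
functions. `Tors n ψ` is the torsor of all `(lam, X)` which respect the cup product of `V` and
the Tate twist; the period matrix is the point with `lam = 2 π i`.

The theorem: let `ψ_i = ρ_i / n`, `n ≥ n₀ (D)`, with different positive rational numbers `ρ_i` with
numerators and denominators at most `n ^ δ`, and let `L` be a number field of degree at most `D`.

(a) If no `ρ_i` is in a certain set of at most `r (1 + ∑ G_a (2 G_a + 1))` numbers, every
polynomial over `L` of degree at most `D` (with coefficients of any size) which vanishes at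
`(2 π i, Per (ψ_1), ..., Per (ψ_r))` vanishes on the whole torsor.

(b) In this case, and for all `ρ_i` if all dimensions are at least `3`, every subtorsor over `L`
which contains this point is the whole torsor.

For example (b) holds for the quintic threefold with `ψ = 1 / n` for all `n ≥ n₀ (D)`.
-/

open scoped BigOperators

open Pool.Agent.CYP Pool.Agent.DRC in
theorem Pool.Agent.Results.MP_77d3f5_ag.CalabiYau.result (nF : ℕ) (G : Fin nF → ℕ)
    (hG : ∀ a, 0 < G a) (r : ℕ) (φ : Fin r → Fin nF) (D : ℕ) :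
    ∃ δ : ℝ, 0 < δ ∧ ∃ n₀ : ℕ, ∀ n : ℕ, n₀ ≤ n →
    ∃ S : Finset ℚ, S.card ≤ r * (1 + ∑ a, G a * (2 * G a + 1)) ∧
      ∀ ρ : Fin r → ℚ, Function.Injective ρ →
      (∀ i, 0 < ρ i ∧ ((ρ i).num : ℝ) ≤ (n : ℝ) ^ δ ∧ ((ρ i).den : ℝ) ≤ (n : ℝ) ^ δ) →
      (∀ i, Tors (2 * G (φ i)) ((ρ i / n : ℚ) : ℂ) (2 * Real.pi * Complex.I)
        (Per (2 * G (φ i)) ((ρ i / n : ℚ) : ℂ))) ∧
      ∀ (L : IntermediateField ℚ ℂ), FiniteDimensional ℚ L → Module.finrank ℚ L ≤ D →
      ((∀ i, ρ i ∉ S) →
        ∀ P : MvPolynomial (Option (Σ i : Fin r, Fin (2 * G (φ i)) × Fin (2 * G (φ i)))) L,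
        P.totalDegree ≤ D →
        MvPolynomial.aeval (Pool.Agent.CYP.tpt (n := fun i => 2 * G (φ i))
          (2 * Real.pi * Complex.I)
          (fun i => Per (2 * G (φ i)) ((ρ i / n : ℚ) : ℂ))) P = (0 : ℂ) →
        ∀ (lam : ℂ) (X : ∀ i, Matrix (Fin (2 * G (φ i))) (Fin (2 * G (φ i))) ℂ), lam ≠ 0 →
          (∀ i, Tors (2 * G (φ i)) ((ρ i / n : ℚ) : ℂ) lam (X i)) →
          MvPolynomial.aeval (Pool.Agent.CYP.tpt (n := fun i => 2 * G (φ i)) lam X) P =
            (0 : ℂ)) ∧
      ((∀ i, ρ i ∉ S) ∨ (∀ a, 2 ≤ G a) → ∀ H : Subgroup (Aut (fun l => 2 * G (φ l))),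
        IsTorsor (fun l => 2 * G (φ l)) (fun l => ((ρ l / n : ℚ) : ℂ)) L H →
        ∀ x : Aut (fun l => 2 * G (φ l)),
          (∀ l, SimilR (2 * G (φ l)) ((ρ l / n : ℚ) : ℂ) (x.1 : ℂ)
            (x.2 l : Matrix (Fin (2 * G (φ l))) (Fin (2 * G (φ l))) ℂ)) → x ∈ H) :=
  Pool.Agent.CYH.uni nF G hG r φ D
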