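import Pool.Agent.EVT.Final

/-!
# Period relations and torsors over number fields for even-dimensional varieties

`X_t : f_1(x_1) + ... + f_n(x_n) + t = 0`, `n = 2 k + 1 ≥ 3`, where the `f_j` are monic rational
polynomials of pairwise coprime degrees `p_j` with `∑ 1 / p_j < 1` (`Adm`). The dimension `2 k` of
`X_t` is even, `H^(2 k)(X_t)` has rank `∏ (p_j - 1)`, and up to Tate classes it is the middle
cohomology of the smooth compactifications of `X_t`: these are K3 surfaces for the degrees `2, 3, 7`
or `2, 3, 11`, in general they are of general type, of any even dimension. The intersection form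
`inter f` is symmetric.

`per f t` is the period matrix of the basis `x ^ I dx / (f_1(x_1) + ... + f_n(x_n) + t) ^ n` of the
cohomology of the complement of `X_t` (equivalently of the residues, a basis of `H^(2 k)_dR(X_t)`),
convergent integrals over `(0, ∞) ^ n`.

The theorem: let `c = (2 π i, M_1, ..., M_r)`, `M_i = per f_(a_i) (ρ_i / n)`, `n ≥ n₀ (D)`, with
positive rational numbers `ρ_i` of numerator and denominator at most `n ^ δ` (`Small`), outside a
finite set of bounded cardinality, and let `L` be a number field of degree at most `D`.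

(1) `Relations`: every polynomial over `L` of degree at most `D` (with coefficients of any size)
which vanishes at `c` vanishes at all `(mu 2 π i, M_1 g_1, ..., M_r g_r)`, where the `g_i` are
similitudes of the symmetric forms `inter` with multiplier `mu ^ (2 k + 2)` and determinant
`mu ^ ((k + 1) rank)` (`InT`, `OSim`).

(2) `Torsors`: every torsor over `L` which contains `c` (`IsTor`) contains all these points.
-/

open Pool.Agent.EVD Pool.Agent.EVT

theorem Pool.Agent.Results.MP_77d3f5_ag.EvenDimension.result (nF : ℕ) (k : Fin nF → ℕ)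
    (f : ∀ a, Fin (2 * k a + 1) → Polynomial ℚ) (hk : ∀ a, 1 ≤ k a) (hf : ∀ a, Adm (f a))
    (hp : ∀ a b, a ≠ b → ∀ ρ : ℚ, 0 < ρ → (fun v : ℂ => ρ * v) '' crit (f a) ≠ crit (f b))
    (r : ℕ) (φ : Fin r → Fin nF) (D : ℕ) :
    ∃ δ : ℝ, 0 < δ ∧ ∃ C n₀ : ℕ, ∀ n : ℕ, n₀ ≤ n → ∃ S : Finset ℚ, S.card ≤ C ∧
    ∀ ρ : Fin r → ℚ, (∀ i j, i ≠ j → φ i = φ j → ρ i ≠ ρ j) → (∀ i, Small δ n (ρ i) ∧ ρ i ∉ S) →
    ∀ L : IntermediateField ℚ ℂ, FiniteDimensional ℚ L → Module.finrank ℚ L ≤ D →
    Relations L D (fun i => f (φ i)) (fun i => ρ i / n) ∧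
    Torsors L (fun i => f (φ i)) (fun i => ρ i / n) :=
  final nF k f hk hf hp r φ D
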