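import Pool.Agent.ABH.Final2
import Pool.Agent.SPJ.Prime
import Pool.Agent.K3T.FinalM
import Pool.Agent.K3M.Final

/-!
# The torsor of Hodge classes of an abelian variety and the Zariski closure of its period point

`A : AbVar g` is an abelian variety over the field of algebraic numbers (`Pool/Agent/DRB/Defs.lean`), with
an ample divisor `D` with theta function `θ`, the basis `dz_k`, `d (∂_k log θ)` of `H¹_dR(A)` over the
algebraic numbers and a basis of `H_1(A, ℤ)`.

The cohomology ring of `A` is the exterior algebra of `H¹(A)`, so an isomorphism in the motivic torsor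
`Ω^mot_A ⊆ Iso (H_dR (A), H_B (A))` of periods is given by an isomorphism
`f : H¹_dR(A) ⊗ ℂ → H¹_B(A) ⊗ ℂ` and the number `λ` by which it acts on Tate twists.  It is represented by
the matrix of the values of `f` at the basis of `H¹_dR(A)` (rows) on the basis of `H_1(A, ℤ)` (columns); for
the comparison isomorphism `c` this is the matrix of periods, and `λ = 2 π i`.

Definitions:
* `Pool/Agent/ABT/Defs.lean`: the points `Pt g` of `Iso`, the comparison isomorphism, `ZX A` (the complex
  points of the Zariski closure of `c` over the algebraic numbers), subtorsors (`IsSubtorsor`);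
* `Pool/Agent/ABH/Defs.lean`: Hodge classes with algebraic de Rham coordinates (`IsHodgeClass`; by a theorem of
  Deligne these are all Hodge classes) and their torsor `Omega A`;
* `Pool/Agent/K3E/Defs.lean`, `Pool/Agent/K3C/Defs.lean`: abelian varieties of Kuga-Satake type, with real
  (`KSE`) and complex (`KSC`) multiplication; `Pool/Agent/K3P/Defs.lean`: products up to isogeny (`Decomp`);
* `Pool/Agent/DRB/Defs3.lean`, `Pool/Agent/DRB/Defs4.lean`: the class `Rank2CM`.  It contains all abelian
  varieties whose simple factors have complex multiplication by fields which are abelian over `ℚ` (for example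
  the Jacobians of all Fermat curves), and all products of such abelian varieties with abelian varieties whose
  endomorphism algebra is a field of degree equal to the dimension or an indefinite quaternion algebra of
  degree equal to twice the dimension, with arbitrary multiplicities.
-/

namespace Pool.Agent.Results.MP_77d3f5_ag.HodgeTorsor

open Pool.Agent.DRB Pool.Agent.K3E Pool.Agent.K3C Pool.Agent.K3P Pool.Agent.K3M
open Pool.Agent.ABT (Pt IsSubtorsor ZX)
open Pool.Agent.ABH (Omega)

/-- The simple `End(A) ⊗ ℂ`-modules have multiplicity one in `H_1(A, ℂ)`, they are conjugate under the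
automorphisms of `ℂ`, and their number is `2 l`: `A` is isogenous to a power of a simple abelian variety of
dimension `l` with complex multiplication by a field of degree `2 l`. -/
def CMPower {g : ℕ} (A : AbVar g) (l : ℕ) : Prop :=
  (∀ p, A.IsComp p → A.comDim p = 1) ∧
  (∀ p q, A.IsComp p → A.IsComp q → ∃ σ : ℂ ≃ₐ[ℚ] ℂ, p.map σ = q) ∧
  {p | A.IsComp p}.ncard = 2 * l

/-- The condition on the CM field `E = ℚ(θ)`, where `P` is the minimal polynomial of `θ`: the degree of `E` is
two or twice a prime number; or the Galois group of the normal closure of `E` has a commutative subgroup which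
is transitive on the roots of `P` (for example, `E` is abelian over `ℚ`); or some automorphism of `ℂ` exchanges
one root of `P` with its complex conjugate and fixes the other roots; or `E` satisfies the condition `Trit`. -/
def FieldCond {g n m : ℕ} {A : AbVar g} (K : KSC A n m) : Prop :=
  K.P.natDegree = 2 ∨ (∃ p : ℕ, p.Prime ∧ K.P.natDegree = 2 * p) ∨
  (∃ G : Subgroup K.P.Gal, (∀ a ∈ G, ∀ b ∈ G, a * b = b * a) ∧
    ∀ x y : K.P.SplittingField, Polynomial.aeval x K.P = 0 → Polynomial.aeval y K.P = 0 →
      ∃ a ∈ G, a x = y) ∨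
  (∃ (σ : ℂ ≃ₐ[ℚ] ℂ) (z : ℂ), Polynomial.aeval z K.P = 0 ∧ σ z = (starRingEnd ℂ) z ∧
    ∀ w : ℂ, Polynomial.aeval w K.P = 0 → w ≠ z → w ≠ (starRingEnd ℂ) z → σ w = w) ∨
  K.Trit

/-- Products, up to isogeny, of Kuga-Satake varieties with real multiplication (`m ≠ 5`) and complex
multiplication (`m` even or `1`), without homomorphisms between different factors; the CM fields satisfy
`FieldCond`, and for two different factors with CM fields some automorphism of `ℂ` is the identity on the
conjugates of the first field and complex conjugation on the conjugates of the second one. -/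
def KSProduct {g : ℕ} (A : AbVar g) : Prop :=
  ∃ (r s : ℕ) (h : Fin (r + s) → ℕ) (B : ∀ i, AbVar (h i)), Nonempty (Decomp A B) ∧
    (∀ i j, i ≠ j → ∀ α, IsHom (B i) (B j) α → α = 0) ∧
    ∃ (n₁ m₁ : Fin r → ℕ) (_ : ∀ i, KSE (B (Fin.castAdd s i)) (n₁ i) (m₁ i))
      (n₂ m₂ : Fin s → ℕ) (K₂ : ∀ j, KSC (B (Fin.natAdd r j)) (n₂ j) (m₂ j)),
      (∀ i, 3 ≤ m₁ i ∧ m₁ i ≠ 5) ∧ (∀ j, 1 ≤ m₂ j ∧ (Even (m₂ j) ∨ m₂ j = 1)) ∧
      (∀ j, FieldCond (K₂ j)) ∧
      (∀ j j', j ≠ j' → ∃ σ : ℂ ≃ₐ[ℚ] ℂ, (∀ z, Polynomial.aeval z (K₂ j).P = 0 → σ z = z) ∧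
        ∀ z, Polynomial.aeval z (K₂ j').P = 0 → σ z = (starRingEnd ℂ) z)

/-- The class of abelian varieties of the theorem. -/
def Class {g : ℕ} (A : AbVar g) : Prop :=
  KSProduct A ∨
  A.Rank2CM ∨
  (∃ l : ℕ, l.Prime ∧ CMPower A l) ∨
  (g ≤ 3 ∧ ∀ p, A.IsComp p → A.comDim p = 1 ∨ (A.comDim p = 4 ∧ cc p = p))

/-- For an abelian variety `A` over the algebraic numbers in the class `Class`, the torsor `Ω_A` of all
Hodge classes on all powers of `A` is the smallest subtorsor of `Iso` containing `Z_A`. -/
theorem result : ∀ (g : ℕ) (A : AbVar g), Class A →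
    IsLeast {S : Set (Pt g) | IsSubtorsor S ∧ ZX A ⊆ S} (Omega A) := by
  intro g A hA
  rcases hA with ⟨r, s, h, B, ⟨D⟩, hH, n₁, m₁, K₁, n₂, m₂, K₂, c1, c2, c3, c4⟩ | hA
  · refine Pool.Agent.K3T.hodgeM3 mainM3 D hH K₁ K₂ c1 c2 (fun j => ?_) c4
    rcases c3 j with h | h | h | h | h
    · exact Trit_proof _ _ _ _ (K₂ j) (Or.inl (Or.inl h))
    · exact Trit_proof _ _ _ _ (K₂ j) (Or.inl (Or.inr h))
    · exact Trit_proof _ _ _ _ (K₂ j) (Or.inr (Or.inr (Or.inl h)))
    · exact Trit_proof _ _ _ _ (K₂ j) (Or.inr (Or.inr (Or.inr h)))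
    · exact h
  · have h : A.Rank2CM := by
      rcases hA with h | ⟨l, hl, h⟩ | ⟨hg, h⟩
      · exact h
      · exact Pool.Agent.SPJ.rank2CM_of_prime A l hl h
      · exact Pool.Agent.SPJ.rank2CM_of_dim_le_three A hg h
    exact Pool.Agent.ABH.hodgeTorsor g A h

end Pool.Agent.Results.MP_77d3f5_ag.HodgeTorsor
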