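import Pool.Agent.DG2.Final

/-!
# Period relations and torsors of products of hyperelliptic curves of every genus
-/

namespace Pool.Agent.Results.MP_77d3f5_ag.HyperellipticDegree

open Pool.Agent.GPH (pol CPath num perMat tpt)
open Pool.Agent.HGP (Ix Simil)
open Pool.Agent.DG2 (critVals crv)
open Pool.Agent.DRD (IsBasis Aut IsTorsor)

theorem result (nF : ℕ) (G : Fin nF → ℕ) (f : ∀ a, Fin (2 * G a + 1) → ℚ)
    (hG : ∀ a, 0 < G a) (h0 : ∀ a, (0 : ℂ) ∉ critVals (crv (G a) (f a) 0))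
    (hcard : ∀ a, (critVals (crv (G a) (f a) 0)).ncard = 2 * G a)
    (hprop : ∀ a b, a ≠ b → ∀ ρ : ℚ, 0 < ρ →
      (fun v => (ρ : ℂ) * v) '' critVals (crv (G a) (f a) 0) ≠ critVals (crv (G b) (f b) 0))
    (r : ℕ) (φ : Fin r → Fin nF) (D : ℕ) :
    ∃ δ : ℝ, 0 < δ ∧ ∃ n₀ : ℕ, ∀ n : ℕ, n₀ ≤ n →
    ∃ S : Finset ℚ, S.card ≤ r * (1 + ∑ a, G a * (2 * G a + 1)) ∧
      ∀ ρ : Fin r → ℚ, (∀ i j, i ≠ j → φ i = φ j → ρ i ≠ ρ j) →
      (∀ i, 0 < ρ i ∧ ρ i ∉ S ∧ ((ρ i).num : ℝ) ≤ (n : ℝ) ^ δ ∧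
        ((ρ i).den : ℝ) ≤ (n : ℝ) ^ δ) →
      ∀ L : IntermediateField ℚ ℂ, FiniteDimensional ℚ L → Module.finrank ℚ L ≤ D →
      (∀ (m : ℕ) (γ : ∀ i, Fin m → CPath (crv (G (φ i)) (f (φ i)) (ρ i / n)))
        (P : MvPolynomial (Option (Σ i : Fin r, Ix (G (φ i)) × Fin m)) L),
        P.totalDegree ≤ D →
        MvPolynomial.aeval (tpt (g := fun i => G (φ i)) (2 * Real.pi * Complex.I)
          (fun i => perMat (G (φ i)) (γ i))) P = (0 : ℂ) →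
        ∀ (mu : ℂ) (h : ∀ i, Matrix (Ix (G (φ i))) (Ix (G (φ i))) ℂ), mu ≠ 0 →
          (∀ i, Simil mu (h i)) →
          MvPolynomial.aeval (tpt (g := fun i => G (φ i)) (mu * (2 * Real.pi * Complex.I))
            (fun i => h i * perMat (G (φ i)) (γ i))) P = (0 : ℂ)) ∧
      ∀ (γ : ∀ i, Fin (2 * G (φ i)) → CPath (crv (G (φ i)) (f (φ i)) (ρ i / n))),
        IsBasis (g := fun i => G (φ i)) γ → ∀ H : Subgroup (Aut (fun i => G (φ i))),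
        IsTorsor (g := fun i => G (φ i)) L γ H →
        ∀ x : Aut (fun i => G (φ i)), (∀ i, Simil (x.1 : ℂ)
          (x.2 i : Matrix (Ix (G (φ i))) (Ix (G (φ i))) ℂ)) → x ∈ H :=
  Pool.Agent.DG2.main3 Pool.Agent.DG2.finc Pool.Agent.DG2.refx
    (Pool.Agent.DG2.cvp_proof Pool.Agent.DG2.tpc) Pool.Agent.UBD.ub nF G f hG h0 hcard hprop r φ D

end Pool.Agent.Results.MP_77d3f5_ag.HyperellipticDegree
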